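import Mathlib
import Pool.Agent.H32.Mem2

namespace Pool.Agent.Results.MP_def589_lc.PrefixIndep

open Pool.Agent.H32.Mem

/-- the infinite word `x y` -/
def app {C : Type} : List C → (ℕ → C) → ℕ → C
  | [], y, n => y n
  | c :: _, _, 0 => c
  | _ :: x, y, n + 1 => app x y n

lemma app_shift {C : Type} : ∀ (x : List C) (y : ℕ → C) (i : ℕ), app x y (i + x.length) = y i
  | [], _, _ => rfl
  | _ :: x, y, i => app_shift x y i

theorem result : ∃ (C : Type) (_ : Fintype C) (_ : Nonempty C) (W : Set (ℕ → C)),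
    (∀ (x : List C) (y : ℕ → C), app x y ∈ W ↔ y ∈ W) ∧ GenFin W ∧ ¬ ChrFin W := by
  refine ⟨Option Col, inferInstance, ⟨none⟩, W', fun x y => ?_, gen_W', not_chr'⟩
  rw [W'_shift _ x.length]
  simp only [app_shift]

end Pool.Agent.Results.MP_def589_lc.PrefixIndep
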